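import Mathlib

set_option autoImplicit false

namespace H12Thin

/-- `S` is thin: any two homeomorphic subsets are matched by a homeomorphism of `S`. -/
def Thin (S : Type) [TopologicalSpace S] : Prop :=
  ∀ A B : Set S, Nonempty (A ≃ₜ B) → ∃ h : S ≃ₜ S, ⇑h '' A = B

end H12Thin
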