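import Mathlib
import Pool.Agent.H12.ThinDef

set_option autoImplicit false

namespace H12Thin

open Topology Set


section
variable {S : Type} [TopologicalSpace S]

/-- strict specialization order -/
def slt (x y : S) : Prop := (y ⤳ x) ∧ ¬ (x ⤳ y)

lemma slt_irrefl (x : S) : ¬ slt x x := fun h => h.2 h.1

lemma slt_trans {x y z : S} (h1 : slt x y) (h2 : slt y z) : slt x z :=
  ⟨h2.1.trans h1.1, fun h => h2.2 (h1.1.trans h)⟩

lemma slt_homeo (h : S ≃ₜ S) {x y : S} (hxy : slt x y) : slt (h x) (h y) := by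
  refine ⟨hxy.1.map h.continuous, fun h' => hxy.2 ?_⟩
  have := h'.map h.symm.continuous
  simpa using this

/-- the topology induced by a strictly decreasing family on a well-order consists of lower sets -/
lemma induced_open {ι : Type 1} [LinearOrder ι] [WellFoundedLT ι] (g : ι → S)
    (hg : ∀ i j, i < j → slt (g j) (g i)) (U : Set ι) :
    (∃ V : Set S, IsOpen V ∧ g ⁻¹' V = U) ↔ IsLowerSet U := by
  constructor
  · rintro ⟨V, hV, rfl⟩ a b hba ha
    rcases eq_or_lt_of_le hba with rfl | hlt
    · exact ha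
    · exact (hg b a hlt).1.mem_open hV ha
  · intro hU
    by_cases h : U = univ
    · exact ⟨univ, isOpen_univ, by simp [h]⟩
    · have hne : (Uᶜ).Nonempty := by
        rw [nonempty_compl]; exact h
      obtain ⟨m, hm, hmin⟩ := (wellFounded_lt (α := ι)).has_min Uᶜ hne
      refine ⟨(closure {g m})ᶜ, isClosed_closure.isOpen_compl, ?_⟩
      ext i
      simp only [mem_preimage, mem_compl_iff]
      rw [← specializes_iff_mem_closure]
      constructor
      · intro hi
        by_contra hiU
        apply hi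
        have : m ≤ i := by
          by_contra hlt
          exact hmin i hiU (not_le.1 hlt)
        rcases eq_or_lt_of_le this with rfl | hlt
        · exact specializes_refl _
        · exact (hg _ _ hlt).1
      · intro hi hs
        have : i < m := by
          by_contra hle
          exact hm (hU (not_lt.1 hle) hi)
        exact (hg _ _ this).2 hs

lemma range_homeo {ι : Type 1} [LinearOrder ι] [WellFoundedLT ι] (g g' : ι → S)
    (hg : ∀ i j, i < j → slt (g j) (g i)) (hg' : ∀ i j, i < j → slt (g' j) (g' i)) :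
    Nonempty (range g ≃ₜ range g') := by
  have inj : ∀ g : ι → S, (∀ i j, i < j → slt (g j) (g i)) → Function.Injective g := by
    intro g hg i j hij
    by_contra hne
    rcases lt_or_gt_of_ne hne with h | h
    · exact slt_irrefl _ (hij ▸ hg _ _ h)
    · exact slt_irrefl _ (hij ▸ hg _ _ h)
  let τ : TopologicalSpace ι := TopologicalSpace.induced g inferInstance
  have e1 : @IsEmbedding ι S τ _ g := @IsEmbedding.mk _ _ _ _ _ (@IsInducing.mk _ _ _ _ _ rfl) (inj g hg)
  have hτ : τ = TopologicalSpace.induced g' inferInstance := by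
    ext U
    have h1 := induced_open g hg U
    have h2 := induced_open g' hg' U
    have e1 : IsOpen[τ] U ↔ ∃ V : Set S, IsOpen V ∧ g ⁻¹' V = U := isOpen_induced_iff
    have e2 : IsOpen[TopologicalSpace.induced g' inferInstance] U ↔
      ∃ V : Set S, IsOpen V ∧ g' ⁻¹' V = U := isOpen_induced_iff
    rw [e1, e2, h1, h2]
  have e2 : @IsEmbedding ι S τ _ g' := @IsEmbedding.mk _ _ _ _ _ (@IsInducing.mk _ _ _ _ _ hτ) (inj g' hg')
  exact ⟨(@IsEmbedding.toHomeomorph _ _ τ _ _ e1).symm.trans (@IsEmbedding.toHomeomorph _ _ τ _ _ e2)⟩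

lemma homog (hS : Thin S) (x y : S) : ∃ h : S ≃ₜ S, h x = y := by
  have : Nonempty (({x} : Set S) ≃ₜ ({y} : Set S)) :=
    ⟨{ toFun := fun _ => ⟨y, rfl⟩
       invFun := fun _ => ⟨x, rfl⟩
       left_inv := fun a => Subsingleton.elim _ _
       right_inv := fun a => Subsingleton.elim _ _
       continuous_toFun := continuous_const
       continuous_invFun := continuous_const }⟩
  obtain ⟨h, hh⟩ := hS _ _ this
  refine ⟨h, ?_⟩
  simpa using hh

/-- between a strictly decreasing sequence and a lower bound there is another point -/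
lemma gap (hS : Thin S) (x x' : S) (hx : slt x' x) (α : Ordinal.{0}) (f : Ordinal.{0} → S)
    (h1 : ∀ β < α, slt x (f β)) (h2 : ∀ β < α, ∀ γ < β, slt (f β) (f γ)) :
    ∃ z, slt x z ∧ ∀ β < α, slt z (f β) := by
  classical
  let g : Set.Iic α → S := fun β => if β.1 < α then f β.1 else x'
  let g' : Set.Iic α → S := fun β => if β.1 < α then f β.1 else x
  have hg : ∀ i j, i < j → slt (g j) (g i) := by
    intro i j hij
    have hi : i.1 < α := lt_of_lt_of_le hij j.2
    by_cases hj : j.1 < α
    · simp only [g, if_pos hi, if_pos hj]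
      exact h2 _ hj _ hij
    · simp only [g, if_pos hi, if_neg hj]
      exact slt_trans hx (h1 _ hi)
  have hg' : ∀ i j, i < j → slt (g' j) (g' i) := by
    intro i j hij
    have hi : i.1 < α := lt_of_lt_of_le hij j.2
    by_cases hj : j.1 < α
    · simp only [g', if_pos hi, if_pos hj]
      exact h2 _ hj _ hij
    · simp only [g', if_pos hi, if_neg hj]
      exact h1 _ hi
  obtain ⟨h, hh⟩ := hS _ _ (range_homeo g g' hg hg')
  have memg : ∀ a, a ∈ range g ↔ a = x' ∨ ∃ β < α, f β = a := by
    intro a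
    constructor
    · rintro ⟨i, rfl⟩
      by_cases hi : i.1 < α
      · right; exact ⟨i.1, hi, by simp [g, hi]⟩
      · left; simp [g, hi]
    · rintro (rfl | ⟨β, hβ, rfl⟩)
      · exact ⟨⟨α, Set.mem_Iic.2 le_rfl⟩, by simp [g]⟩
      · exact ⟨⟨β, hβ.le⟩, by simp [g, hβ]⟩
  have memg' : ∀ a, a ∈ range g' ↔ a = x ∨ ∃ β < α, f β = a := by
    intro a
    constructor
    · rintro ⟨i, rfl⟩
      by_cases hi : i.1 < α
      · right; exact ⟨i.1, hi, by simp [g', hi]⟩
      · left; simp [g', hi]
    · rintro (rfl | ⟨β, hβ, rfl⟩)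
      · exact ⟨⟨α, Set.mem_Iic.2 le_rfl⟩, by simp [g']⟩
      · exact ⟨⟨β, hβ.le⟩, by simp [g', hβ]⟩
  have hx'x : h x' = x := by
    by_contra hne
    have m1 : h x' ∈ range g' := by rw [← hh]; exact ⟨x', (memg x').2 (Or.inl rfl), rfl⟩
    rcases (memg' _).1 m1 with e | ⟨β, hβ, e⟩
    · exact hne e
    · have l1 : slt x (h x') := by rw [← e]; exact h1 β hβ
      have m2 : x ∈ ⇑h '' range g := by rw [hh]; exact (memg' x).2 (Or.inl rfl)
      obtain ⟨a, ha, hax⟩ := m2
      rcases (memg a).1 ha with rfl | ⟨γ, hγ, rfl⟩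
      · exact hne hax
      · have l2 : slt (h x') (h (f γ)) := slt_homeo h (slt_trans hx (h1 γ hγ))
        rw [hax] at l2
        exact slt_irrefl _ (slt_trans l1 l2)
  refine ⟨h x, ?_, ?_⟩
  · have := slt_homeo h hx
    rwa [hx'x] at this
  · intro β hβ
    have m2 : f β ∈ ⇑h '' range g := by rw [hh]; exact (memg' _).2 (Or.inr ⟨β, hβ, rfl⟩)
    obtain ⟨a, ha, hax⟩ := m2
    rcases (memg a).1 ha with rfl | ⟨γ, hγ, rfl⟩
    · exfalso
      rw [hx'x] at hax
      have := h1 β hβ
      rw [← hax] at this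
      exact slt_irrefl _ this
    · rw [← hax]
      exact slt_homeo h (h1 γ hγ)

open Classical in
/-- transfinite descending sequence above `x` -/
noncomputable def desc (x : S) : Ordinal.{0} → S :=
  WellFounded.fix (wellFounded_lt (α := Ordinal.{0})) (fun α f =>
    if H : ∃ z, slt x z ∧ ∀ β (hβ : β < α), slt z (f β hβ) then H.choose else x)

lemma desc_spec (x : S) (α : Ordinal.{0}) (H : ∃ z, slt x z ∧ ∀ β < α, slt z (desc x β)) :
    slt x (desc x α) ∧ ∀ β < α, slt (desc x α) (desc x β) := by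
  have key : desc x α = H.choose := by
    conv_lhs => unfold desc
    rw [WellFounded.fix_eq]
    exact dif_pos H
  rw [key]
  exact H.choose_spec

/-- In a thin space, the specialization preorder is symmetric (no proper specialization). -/
theorem thin_symm (hS : Thin S) (x y : S) (h : x ⤳ y) : y ⤳ x := by
  by_contra hyx
  have hlt : slt y x := ⟨h, hyx⟩
  -- `y < x`; find `x' < y`
  obtain ⟨h0, hh0⟩ := homog hS x y
  have hlt' : slt (h0 y) y := by
    have := slt_homeo h0 hlt
    rwa [hh0] at this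
  have P : ∀ α : Ordinal.{0}, slt y (desc y α) ∧ ∀ β < α, slt (desc y α) (desc y β) := by
    intro α
    induction α using WellFoundedLT.induction with
    | ind α ih =>
      apply desc_spec
      exact gap hS y (h0 y) hlt' α (desc y) (fun β hβ => (ih β hβ).1)
        (fun β hβ γ hγ => (ih β hβ).2 γ hγ)
  apply not_injective_of_ordinal (desc y)
  intro α β hαβ
  by_contra hne
  rcases lt_or_gt_of_ne hne with hl | hl
  · have := (P β).2 α hl
    rw [hαβ] at this
    exact slt_irrefl _ this
  · have := (P α).2 β hl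
    rw [hαβ] at this
    exact slt_irrefl _ this

/-- In an infinite thin space every class of topologically indistinguishable points is finite. -/
theorem class_finite [Infinite S] (hS : Thin S) (x : S) : {y : S | Inseparable y x}.Finite := by
  classical
  by_contra hinf
  have hI : Infinite {y : S | Inseparable y x} := Set.infinite_coe_iff.2 hinf
  set C : Set S := {y : S | Inseparable y x} with hC
  let x0 : C := ⟨x, Inseparable.refl x⟩
  have hcard : Cardinal.mk ((({x0} : Finset C) : Set C)ᶜ : Set C) = Cardinal.mk C :=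
    Cardinal.mk_compl_finset_of_infinite _
  obtain ⟨e⟩ := Cardinal.eq.1 hcard
  let φ : S → S := fun s => if hs : s ∈ C then (e.symm ⟨s, hs⟩).1.1 else s
  have hφins : ∀ s, Inseparable (φ s) s := by
    intro s
    by_cases hs : s ∈ C
    · simp only [φ, dif_pos hs]
      have h1 : Inseparable ((e.symm ⟨s, hs⟩).1.1) x := (e.symm ⟨s, hs⟩).1.2
      exact h1.trans (show Inseparable s x from hs).symm
    · simp only [φ, dif_neg hs]
      exact Inseparable.refl s
  have hφC : ∀ s, φ s ∈ C ↔ s ∈ C := by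
    intro s
    constructor
    · intro h; exact (hφins s).symm.trans h
    · intro h; exact (hφins s).trans h
  have hinj : Function.Injective φ := by
    intro s t hst
    by_cases hs : s ∈ C
    · have ht : t ∈ C := by rw [← hφC, ← hst, hφC]; exact hs
      simp only [φ, dif_pos hs, dif_pos ht] at hst
      have := e.symm.injective (Subtype.ext (Subtype.ext hst))
      simpa using this
    · have ht : t ∉ C := by rw [← hφC, ← hst, hφC]; exact hs
      simpa only [φ, dif_neg hs, dif_neg ht] using hst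
  have hrange : x ∉ range φ := by
    rintro ⟨s, hs⟩
    have hsC : s ∈ C := by rw [← hφC, hs]; exact Inseparable.refl x
    simp only [φ, dif_pos hsC] at hs
    have h2 := (e.symm ⟨s, hsC⟩).2
    apply h2
    simp only [Finset.coe_singleton, mem_singleton_iff]
    exact Subtype.ext hs
  have hind : IsInducing φ := by
    constructor
    ext U
    rw [isOpen_induced_iff]
    constructor
    · intro hU
      refine ⟨U, hU, ?_⟩
      ext s
      exact (hφins s).mem_open_iff hU
    · rintro ⟨V, hV, rfl⟩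
      have : φ ⁻¹' V = V := by
        ext s
        exact (hφins s).mem_open_iff hV
      rw [this]; exact hV
  have hemb : IsEmbedding φ := ⟨hind, hinj⟩
  have hh : Nonempty ((univ : Set S) ≃ₜ range φ) :=
    ⟨(Homeomorph.Set.univ S).trans hemb.toHomeomorph⟩
  obtain ⟨h, hh⟩ := hS _ _ hh
  apply hrange
  rw [← hh]
  exact ⟨h.symm x, trivial, by simp⟩

/-- Product decomposition of a thin space: `T₀`-quotient times one (indiscrete) class. -/
theorem decomposition (hS : Thin S) (x : S) :
    ∃ e : S ≃ SeparationQuotient S × {y : S | Inseparable y x},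
      (∀ s, (e s).1 = SeparationQuotient.mk s) := by
  classical
  -- each class is in bijection with the class of x
  have hcl : ∀ q : SeparationQuotient S,
      Nonempty ({s : S // SeparationQuotient.mk s = q} ≃ {y : S | Inseparable y x}) := by
    intro q
    obtain ⟨y, rfl⟩ := SeparationQuotient.surjective_mk q
    obtain ⟨h, hh⟩ := homog hS y x
    refine ⟨h.toEquiv.subtypeEquiv ?_⟩
    intro a
    rw [SeparationQuotient.mk_eq_mk]
    show Inseparable a y ↔ Inseparable (h a) x
    rw [← hh]
    exact (h.isInducing.inseparable_iff).symm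
  let e1 : S ≃ (Σ q : SeparationQuotient S, {s : S // SeparationQuotient.mk s = q}) :=
    (Equiv.sigmaFiberEquiv SeparationQuotient.mk).symm
  let e2 : (Σ q : SeparationQuotient S, {s : S // SeparationQuotient.mk s = q}) ≃
      (Σ _q : SeparationQuotient S, {y : S | Inseparable y x}) :=
    Equiv.sigmaCongrRight fun q => (hcl q).some
  refine ⟨(e1.trans e2).trans (Equiv.sigmaEquivProd _ _), ?_⟩
  intro s
  rfl

/-- The `T₀`-quotient of a thin space is thin. -/
theorem quotient_thin (hS : Thin S) : Thin (SeparationQuotient S) := by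
  classical
  intro A B hAB
  obtain ⟨f⟩ := hAB
  rcases isEmpty_or_nonempty S with hE | ⟨⟨x⟩⟩
  · refine ⟨Homeomorph.refl _, ?_⟩
    have : IsEmpty (SeparationQuotient S) := by
      constructor
      intro q
      obtain ⟨y, -⟩ := SeparationQuotient.surjective_mk q
      exact hE.false y
    ext q
    exact (this.false q).elim
  · obtain ⟨e, he⟩ := decomposition hS x
    -- lift of f
    let mkS : S → SeparationQuotient S := SeparationQuotient.mk
    let F : (mkS ⁻¹' A : Set S) → (mkS ⁻¹' B : Set S) := fun a =>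
      ⟨e.symm ((f ⟨mkS a.1, a.2⟩).1, (e a.1).2), by
        show SeparationQuotient.mk _ ∈ B
        rw [← he]; simp⟩
    let G : (mkS ⁻¹' B : Set S) → (mkS ⁻¹' A : Set S) := fun a =>
      ⟨e.symm ((f.symm ⟨mkS a.1, a.2⟩).1, (e a.1).2), by
        show SeparationQuotient.mk _ ∈ A
        rw [← he]; simp⟩
    have mkF : ∀ a, mkS (F a).1 = (f ⟨mkS a.1, a.2⟩).1 := by
      intro a
      show SeparationQuotient.mk _ = _
      rw [← he]; simp [F]
    have mkG : ∀ a, mkS (G a).1 = (f.symm ⟨mkS a.1, a.2⟩).1 := by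
      intro a
      show SeparationQuotient.mk _ = _
      rw [← he]; simp [G]
    have hFG : ∀ a, G (F a) = a := by
      intro a
      apply Subtype.ext
      apply e.injective
      apply Prod.ext
      · have : (⟨mkS (F a).1, (F a).2⟩ : B) = f ⟨mkS a.1, a.2⟩ := Subtype.ext (mkF a)
        show (e (e.symm ((f.symm ⟨mkS (F a).1, (F a).2⟩).1, (e (F a).1).2))).1 = _
        rw [this]
        simp [he, mkS]
      · simp [G, F]
    have hGF : ∀ a, F (G a) = a := by
      intro a
      apply Subtype.ext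
      apply e.injective
      apply Prod.ext
      · have : (⟨mkS (G a).1, (G a).2⟩ : A) = f.symm ⟨mkS a.1, a.2⟩ := Subtype.ext (mkG a)
        show (e (e.symm ((f ⟨mkS (G a).1, (G a).2⟩).1, (e (G a).1).2))).1 = _
        rw [this]
        simp [he, mkS]
      · simp [G, F]
    have hFc : Continuous F := by
      apply Continuous.subtype_mk
      refine SeparationQuotient.isInducing_mk.continuous_iff.2 ?_
      have : (SeparationQuotient.mk ∘ fun a : (mkS ⁻¹' A : Set S) => e.symm ((f ⟨mkS a.1, a.2⟩).1, (e a.1).2)) =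
          fun a => (f ⟨mkS a.1, a.2⟩).1 := by
        funext a
        exact mkF a
      rw [this]
      exact continuous_subtype_val.comp (f.continuous.comp
        ((SeparationQuotient.continuous_mk.comp continuous_subtype_val).subtype_mk _))
    have hGc : Continuous G := by
      apply Continuous.subtype_mk
      refine SeparationQuotient.isInducing_mk.continuous_iff.2 ?_
      have : (SeparationQuotient.mk ∘ fun a : (mkS ⁻¹' B : Set S) => e.symm ((f.symm ⟨mkS a.1, a.2⟩).1, (e a.1).2)) =
          fun a => (f.symm ⟨mkS a.1, a.2⟩).1 := by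
        funext a
        exact mkG a
      rw [this]
      exact continuous_subtype_val.comp (f.symm.continuous.comp
        ((SeparationQuotient.continuous_mk.comp continuous_subtype_val).subtype_mk _))
    obtain ⟨h, hh⟩ := hS (mkS ⁻¹' A) (mkS ⁻¹' B) ⟨⟨⟨F, G, hFG, hGF⟩, hFc, hGc⟩⟩
    -- descend h
    have hc1 : Continuous (SeparationQuotient.mk ∘ h : S → SeparationQuotient S) :=
      SeparationQuotient.continuous_mk.comp h.continuous
    have hc2 : Continuous (SeparationQuotient.mk ∘ h.symm : S → SeparationQuotient S) :=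
      SeparationQuotient.continuous_mk.comp h.symm.continuous
    let H : SeparationQuotient S → SeparationQuotient S :=
      SeparationQuotient.lift (SeparationQuotient.mk ∘ h)
        (fun a b hab => SeparationQuotient.mk_eq_mk.2 (hab.map h.continuous))
    let H' : SeparationQuotient S → SeparationQuotient S :=
      SeparationQuotient.lift (SeparationQuotient.mk ∘ h.symm)
        (fun a b hab => SeparationQuotient.mk_eq_mk.2 (hab.map h.symm.continuous))
    have hH : ∀ s, H (SeparationQuotient.mk s) = SeparationQuotient.mk (h s) := fun s => rfl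
    have hH' : ∀ s, H' (SeparationQuotient.mk s) = SeparationQuotient.mk (h.symm s) := fun s => rfl
    have hHc : Continuous H := SeparationQuotient.continuous_lift hc1
    have hHc' : Continuous H' := SeparationQuotient.continuous_lift hc2
    refine ⟨⟨⟨H, H', ?_, ?_⟩, hHc, hHc'⟩, ?_⟩
    · intro q
      obtain ⟨s, rfl⟩ := SeparationQuotient.surjective_mk q
      rw [hH, hH']; simp
    · intro q
      obtain ⟨s, rfl⟩ := SeparationQuotient.surjective_mk q
      rw [hH', hH]; simp
    · ext q
      obtain ⟨s, rfl⟩ := SeparationQuotient.surjective_mk q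
      constructor
      · rintro ⟨a, ha, hq⟩
        obtain ⟨t, rfl⟩ := SeparationQuotient.surjective_mk a
        have hq' : SeparationQuotient.mk (h t) = SeparationQuotient.mk s := hq
        have : h t ∈ mkS ⁻¹' B := by rw [← hh]; exact ⟨t, ha, rfl⟩
        have h3 : SeparationQuotient.mk (h t) ∈ B := this
        rwa [hq'] at h3
      · intro hs
        have : s ∈ ⇑h '' (mkS ⁻¹' A) := by rw [hh]; exact hs
        obtain ⟨t, ht, rfl⟩ := this
        exact ⟨SeparationQuotient.mk t, ht, rfl⟩

/-- A thin Hausdorff space contains no infinite set converging to a point. -/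
theorem no_convergent [T2Space S] (hS : Thin S) (D : Set S) (hD : D.Infinite) (p : S)
    (hconv : ∀ U : Set S, IsOpen U → p ∈ U → (D \ U).Finite) : False := by
  classical
  -- make D countable
  obtain ⟨u⟩ : Nonempty (ℕ ↪ D) := by
    have : Infinite D := hD.to_subtype
    exact ⟨Infinite.natEmbedding D⟩
  have hcl : ∀ (D : Set S) (q : S), D.Countable → (∀ U : Set S, IsOpen U → q ∈ U → (D \ U).Finite) →
      q ∉ D → ∀ a : S, a ≠ q → ∃ W : Set S, IsOpen W ∧ a ∈ W ∧ W ∩ D ⊆ {a} := by
    intro D q _ hq _ a haq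
    obtain ⟨U, V, hU, hV, haU, hqV, hUV⟩ := t2_separation haq
    have hfin : ((D ∩ U) \ {a}).Finite := by
      refine (hq V hV hqV).subset ?_
      rintro z ⟨⟨hzD, hzU⟩, -⟩
      exact ⟨hzD, fun hzV => hUV.le_bot ⟨hzU, hzV⟩⟩
    refine ⟨U \ ((D ∩ U) \ {a}), hU.sdiff hfin.isClosed, ⟨haU, fun h => h.2 rfl⟩, ?_⟩
    rintro z ⟨⟨hzU, hz⟩, hzD⟩
    by_contra hza
    exact hz ⟨⟨hzD, hzU⟩, hza⟩
  set D0 : Set S := range (fun n => (u n : S)) \ {p} with hD0
  have hD0c : D0.Countable := (countable_range _).mono diff_subset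
  have hu : Function.Injective (fun n => (u n : S)) := by
    intro a b hab
    exact u.injective (Subtype.ext hab)
  have hD0i : D0.Infinite := (infinite_range_of_injective hu).diff (finite_singleton p)
  have hD0D : D0 ⊆ D := by
    rintro z ⟨⟨n, rfl⟩, -⟩
    exact (u n).2
  have hconv0 : ∀ U : Set S, IsOpen U → p ∈ U → (D0 \ U).Finite := fun U hU hp =>
    (hconv U hU hp).subset (diff_subset_diff_left hD0D)
  obtain ⟨q, hqD⟩ := hD0i.nonempty
  have hqp : q ≠ p := fun h => hqD.2 h
  obtain ⟨g, hg⟩ := homog hS p q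
  set D1 : Set S := ⇑g '' D0 with hD1
  have hconv1 : ∀ U : Set S, IsOpen U → q ∈ U → (D1 \ U).Finite := by
    intro U hU hq
    have h1 := (hconv0 (g ⁻¹' U) (hU.preimage g.continuous) (by simpa [hg] using hq)).image g
    refine h1.subset ?_
    rintro z ⟨⟨a, ha, rfl⟩, hz⟩
    exact ⟨a, ⟨ha, hz⟩, rfl⟩
  obtain ⟨V, U, hV, hU, hqV, hpU, hUV⟩ := t2_separation hqp
  set E0 : Set S := D0 ∩ U with hE0
  set E1 : Set S := D1 ∩ V with hE1
  have hE0i : E0.Infinite := by
    intro hf
    apply hD0i
    refine (hf.union (hconv0 U hU hpU)).subset ?_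
    intro z hz
    by_cases h : z ∈ U
    · exact Or.inl ⟨hz, h⟩
    · exact Or.inr ⟨hz, h⟩
  have hD1i : D1.Infinite := hD0i.image g.injective.injOn
  have hE1i : E1.Infinite := by
    intro hf
    apply hD1i
    refine (hf.union (hconv1 V hV hqV)).subset ?_
    intro z hz
    by_cases h : z ∈ V
    · exact Or.inl ⟨hz, h⟩
    · exact Or.inr ⟨hz, h⟩
  have hE0c : E0.Countable := hD0c.mono inter_subset_left
  have hE1c : E1.Countable := (hD0c.image _).mono inter_subset_left
  have hpD0 : p ∉ D0 := fun h => h.2 rfl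
  have hqD1 : q ∉ D1 := by
    rintro ⟨a, ha, haq⟩
    have : a = p := g.injective (haq.trans hg.symm)
    exact hpD0 (this ▸ ha)
  -- discreteness
  have disc : ∀ E : Set S, (∀ a ∈ E, ∃ W : Set S, IsOpen W ∧ a ∈ W ∧ W ∩ E ⊆ {a}) →
      DiscreteTopology E := by
    intro E hE
    rw [discreteTopology_subtype_iff']
    intro a ha
    obtain ⟨W, hW, haW, hWE⟩ := hE a ha
    refine ⟨W, hW, ?_⟩
    apply Subset.antisymm hWE
    rintro z rfl
    exact ⟨haW, ha⟩
  have dE0 : DiscreteTopology E0 := by
    apply disc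
    intro a ha
    obtain ⟨W, hW, haW, hWE⟩ := hcl D0 p hD0c hconv0 hpD0 a (fun h => hpD0 (h ▸ ha.1))
    exact ⟨W, hW, haW, fun z hz => hWE ⟨hz.1, hz.2.1⟩⟩
  have dE : DiscreteTopology (E0 ∪ E1 : Set S) := by
    apply disc
    rintro a (ha | ha)
    · obtain ⟨W, hW, haW, hWE⟩ := hcl D0 p hD0c hconv0 hpD0 a (fun h => hpD0 (h ▸ ha.1))
      refine ⟨W ∩ U, hW.inter hU, ⟨haW, ha.2⟩, ?_⟩
      rintro z ⟨⟨hzW, hzU⟩, hz | hz⟩
      · exact hWE ⟨hzW, hz.1⟩
      · exact (hUV.le_bot ⟨hz.2, hzU⟩).elim
    · obtain ⟨W, hW, haW, hWE⟩ := hcl D1 q (hD0c.image _) hconv1 hqD1 a (fun h => hqD1 (h ▸ ha.1))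
      refine ⟨W ∩ V, hW.inter hV, ⟨haW, ha.2⟩, ?_⟩
      rintro z ⟨⟨hzW, hzV⟩, hz | hz⟩
      · exact (hUV.le_bot ⟨hzV, hz.2⟩).elim
      · exact hWE ⟨hzW, hz.1⟩
  have hEi : (E0 ∪ E1).Infinite := hE0i.mono subset_union_left
  have hEc : (E0 ∪ E1).Countable := hE0c.union hE1c
  obtain ⟨den0⟩ := countable_infinite_iff_nonempty_denumerable.1 ⟨hE0c, hE0i⟩
  obtain ⟨denE⟩ := countable_infinite_iff_nonempty_denumerable.1 ⟨hEc, hEi⟩
  have eqv : E0 ≃ (E0 ∪ E1 : Set S) := Denumerable.equiv₂ _ _
  obtain ⟨h, hh⟩ := hS E0 (E0 ∪ E1) ⟨⟨eqv, continuous_of_discreteTopology, continuous_of_discreteTopology⟩⟩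
  -- E0 ∪ E1 converges to h p
  have hconvE : ∀ U : Set S, IsOpen U → h p ∈ U → ((E0 ∪ E1) \ U).Finite := by
    intro U hU hp
    have h1 := (hconv0 (h ⁻¹' U) (hU.preimage h.continuous) hp).image h
    refine h1.subset ?_
    rintro z ⟨hz, hzU⟩
    rw [← hh] at hz
    obtain ⟨a, ha, rfl⟩ := hz
    exact ⟨a, ⟨ha.1, hzU⟩, rfl⟩
  have key : ∀ (D : Set S) (r : S), D.Infinite → (∀ U : Set S, IsOpen U → r ∈ U → (D \ U).Finite) →
      D ⊆ E0 ∪ E1 → h p = r := by
    intro D r hDi hr hDE
    by_contra hne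
    obtain ⟨A, B, hA, hB, hpA, hrB, hAB⟩ := t2_separation hne
    apply hDi
    refine ((hconvE A hA hpA).union (hr B hB hrB)).subset ?_
    intro z hz
    by_cases hzA : z ∈ A
    · right
      exact ⟨hz, fun hzB => hAB.le_bot ⟨hzA, hzB⟩⟩
    · left
      exact ⟨hDE hz, hzA⟩
  have k1 : h p = p := key E0 p hE0i (fun U hU hp => (hconv0 U hU hp).subset
    (diff_subset_diff_left inter_subset_left)) subset_union_left
  have k2 : h p = q := key E1 q hE1i (fun U hU hp => (hconv1 U hU hp).subset
    (diff_subset_diff_left inter_subset_left)) subset_union_right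
  exact hqp (k2.symm.trans k1)

/-- two-point homogeneity of a thin `T₁` space -/
lemma pair_homog [T1Space S] (hS : Thin S) {x y a b : S} (hxy : x ≠ y) (hab : a ≠ b) :
    ∃ h : S ≃ₜ S, (h x = a ∧ h y = b) ∨ (h x = b ∧ h y = a) := by
  classical
  have f1 : Finite ({x, y} : Set S) := (Set.toFinite _).to_subtype
  have f2 : Finite ({a, b} : Set S) := (Set.toFinite _).to_subtype
  have c1 : Nat.card ({x, y} : Set S) = 2 := by
    rw [Nat.card_coe_set_eq, Set.ncard_pair hxy]
  have c2 : Nat.card ({a, b} : Set S) = 2 := by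
    rw [Nat.card_coe_set_eq, Set.ncard_pair hab]
  obtain ⟨e⟩ : Nonempty (({x, y} : Set S) ≃ ({a, b} : Set S)) := Finite.card_eq.1 (c1.trans c2.symm)
  obtain ⟨h, hh⟩ := hS {x, y} {a, b}
    ⟨⟨e, continuous_of_discreteTopology, continuous_of_discreteTopology⟩⟩
  refine ⟨h, ?_⟩
  have hx : h x ∈ ({a, b} : Set S) := by rw [← hh]; exact ⟨x, by simp, rfl⟩
  have hy : h y ∈ ({a, b} : Set S) := by rw [← hh]; exact ⟨y, by simp, rfl⟩
  have hne : h x ≠ h y := fun h' => hxy (h.injective h')
  rcases hx with hx | hx <;> rcases hy with hy | hy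
  · exact (hne (hx.trans hy.symm)).elim
  · exact Or.inl ⟨hx, hy⟩
  · exact Or.inr ⟨hx, hy⟩
  · exact (hne (hx.trans hy.symm)).elim

/-- A thin `T₁` space with two disjoint nonempty open sets is Hausdorff. -/
theorem hausdorff_of_disjoint [T1Space S] (hS : Thin S) (U V : Set S) (hU : IsOpen U)
    (hV : IsOpen V) (hUn : U.Nonempty) (hVn : V.Nonempty) (hUV : Disjoint U V) : T2Space S := by
  obtain ⟨x, hx⟩ := hUn
  obtain ⟨y, hy⟩ := hVn
  have hxy : x ≠ y := fun h => hUV.le_bot ⟨hx, h ▸ hy⟩
  constructor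
  intro a b hab
  obtain ⟨h, (⟨h1, h2⟩ | ⟨h1, h2⟩)⟩ := pair_homog hS hxy hab
  · refine ⟨h '' U, h '' V, h.isOpenMap U hU, h.isOpenMap V hV, ⟨x, hx, h1⟩, ⟨y, hy, h2⟩, ?_⟩
    exact (disjoint_image_iff h.injective).2 hUV
  · refine ⟨h '' V, h '' U, h.isOpenMap V hV, h.isOpenMap U hU, ⟨y, hy, h2⟩, ⟨x, hx, h1⟩, ?_⟩
    exact (disjoint_image_iff h.injective).2 hUV.symm

/-- A separable thin space has no infinite sequence of disjoint nonempty open sets. -/
theorem no_disjoint_seq [TopologicalSpace.SeparableSpace S] (hS : Thin S) (W : ℕ → Set S)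
    (hWo : ∀ n, IsOpen (W n)) (hWn : ∀ n, (W n).Nonempty)
    (hWd : ∀ i j, i ≠ j → Disjoint (W i) (W j)) : False := by
  classical
  have hne : Nonempty S := (hWn 0).to_type
  let s : ℕ → S := TopologicalSpace.denseSeq S
  have hs : DenseRange s := TopologicalSpace.denseRange_denseSeq S
  choose w hw using hWn
  choose g hg using fun k => homog hS (s k) (w (k + 1))
  let N : ℕ → Set S := fun k => g k ⁻¹' W (k + 1)
  have hNo : ∀ k, IsOpen (N k) := fun k => (hWo (k + 1)).preimage (g k).continuous
  have hsN : ∀ k, s k ∈ N k := fun k => by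
    show g k (s k) ∈ W (k + 1)
    rw [hg k]; exact hw (k + 1)
  let P : ℕ → Set S := fun k => N k \ closure (⋃ i : {i // i < k}, N i.1)
  have hPo : ∀ k, IsOpen (P k) := fun k => (hNo k).sdiff isClosed_closure
  have hPN : ∀ k, P k ⊆ N k := fun k => sdiff_subset
  have hPd : ∀ i j, i < j → ∀ z, z ∈ P i → z ∈ P j → False := by
    intro i j hij z hi hj
    apply hj.2
    apply subset_closure
    exact mem_iUnion.2 ⟨⟨i, hij⟩, hPN i hi⟩
  have hPu : ∀ i j z, z ∈ P i → z ∈ P j → i = j := by
    intro i j z hi hj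
    by_contra hne
    rcases lt_or_gt_of_ne hne with h | h
    · exact hPd i j h z hi hj
    · exact hPd j i h z hj hi
  let A : Set S := ⋃ k, P k
  have hAo : IsOpen A := isOpen_iUnion hPo
  have hAd : Dense A := by
    rw [dense_iff_inter_open]
    intro U hU hUn
    obtain ⟨k0, hk0⟩ := hs.exists_mem_open hU hUn
    have hex : ∃ k, (U ∩ N k).Nonempty := ⟨k0, s k0, hk0, hsN k0⟩
    obtain ⟨z, hzU, hzN⟩ := Nat.find_spec hex
    refine ⟨z, hzU, mem_iUnion.2 ⟨Nat.find hex, hzN, ?_⟩⟩
    intro hcl
    obtain ⟨t, htU, htN⟩ := mem_closure_iff.1 hcl U hU hzU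
    obtain ⟨⟨i, hi⟩, hti⟩ := mem_iUnion.1 htN
    exact Nat.find_min hex hi ⟨t, htU, hti⟩
  have hκ : ∀ a : A, ∃ k, a.1 ∈ P k := fun a => mem_iUnion.1 a.2
  choose κ hκP using hκ
  let F : A → S := fun a => g (κ a) a.1
  have hFW : ∀ a, F a ∈ W (κ a + 1) := fun a => hPN _ (hκP a)
  have hFk : ∀ (a : A) k, a.1 ∈ P k → F a = g k a.1 := by
    intro a k hk
    have : κ a = k := hPu _ _ _ (hκP a) hk
    show g (κ a) a.1 = _
    rw [this]
  have hFinj : Function.Injective F := by
    intro a b hab
    have h1 := hFW a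
    have h2 := hFW b
    rw [hab] at h1
    have hκe : κ a = κ b := by
      by_contra hne
      exact (hWd (κ a + 1) (κ b + 1) (fun h => hne (by omega))).le_bot ⟨h1, h2⟩
    have h3 : g (κ a) a.1 = g (κ a) b.1 := by
      have : F b = g (κ a) b.1 := hFk b _ (hκe ▸ hκP b)
      rw [← this]; exact hab
    exact Subtype.ext ((g (κ a)).injective h3)
  have hFcont : Continuous F := by
    rw [continuous_iff_continuousAt]
    intro a
    have hev : F =ᶠ[𝓝 a] fun b => g (κ a) b.1 := by
      have hopen : IsOpen {b : A | b.1 ∈ P (κ a)} := (hPo (κ a)).preimage continuous_subtype_val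
      filter_upwards [hopen.mem_nhds (hκP a)] with b hb
      exact hFk b _ hb
    exact ((g (κ a)).continuous.comp continuous_subtype_val).continuousAt.congr hev.symm
  have hFopen : IsOpenMap F := by
    intro U hU
    have hU' : IsOpen (Subtype.val '' U : Set S) := hAo.isOpenMap_subtype_val U hU
    have : F '' U = ⋃ k, g k '' ((Subtype.val '' U) ∩ P k) := by
      ext z
      constructor
      · rintro ⟨a, ha, rfl⟩
        exact mem_iUnion.2 ⟨κ a, a.1, ⟨⟨a, ha, rfl⟩, hκP a⟩, rfl⟩
      · intro hz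
        obtain ⟨k, t, ⟨⟨a, ha, rfl⟩, hk⟩, rfl⟩ := mem_iUnion.1 hz
        exact ⟨a, ha, hFk a k hk⟩
    rw [this]
    exact isOpen_iUnion fun k => (g k).isOpenMap _ (hU'.inter (hPo k))
  have hemb : IsEmbedding F := (IsOpenEmbedding.of_continuous_injective_isOpenMap hFcont hFinj hFopen).isEmbedding
  obtain ⟨h, hh⟩ := hS A (range F) ⟨hemb.toHomeomorph⟩
  have hd : Dense (range F) := by
    rw [← hh]
    exact h.surjective.denseRange.dense_image h.continuous hAd
  obtain ⟨z, hzW, a, rfl⟩ := hd.inter_open_nonempty (W 0) (hWo 0) ⟨w 0, hw 0⟩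
  exact (hWd 0 (κ a + 1) (by omega)).le_bot ⟨hzW, hFW a⟩

lemma decomp_homeo (hS : Thin S) (x : S) :
    ∃ (I : Type) (_ : TopologicalSpace I), IndiscreteTopology I ∧ Nonempty I ∧
      (Infinite S → Finite I) ∧ Nonempty (S ≃ₜ SeparationQuotient S × I) := by
  obtain ⟨e, he⟩ := decomposition hS x
  let tI : TopologicalSpace {y : S | Inseparable y x} := ⊤
  refine ⟨{y : S | Inseparable y x}, ⊤, ⟨rfl⟩, ⟨⟨x, Inseparable.refl x⟩⟩, ?_, ?_⟩
  · intro hinf
    exact (class_finite hS x).to_subtype
  · refine ⟨@Equiv.toHomeomorphOfIsInducing _ _ _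
      (@instTopologicalSpaceProd _ _ _ ⊤) e ?_⟩
    refine @IsInducing.mk _ _ _ (@instTopologicalSpaceProd _ _ _ ⊤) _ ?_
    have h1 : (@instTopologicalSpaceProd (SeparationQuotient S) {y : S | Inseparable y x} _ ⊤) =
        TopologicalSpace.induced Prod.fst inferInstance := by
      show TopologicalSpace.induced Prod.fst _ ⊓ TopologicalSpace.induced Prod.snd ⊤ = _
      rw [induced_top, inf_top_eq]
    rw [h1, induced_compose]
    have h2 : (Prod.fst ∘ e : S → SeparationQuotient S) = SeparationQuotient.mk := funext he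
    rw [h2]
    exact SeparationQuotient.isInducing_mk.eq_induced

lemma r0_of_thin (hS : Thin S) : R0Space S := ⟨⟨fun x y h => thin_symm hS x y h⟩⟩

lemma quotient_infinite [Infinite S] (hS : Thin S) : Infinite (SeparationQuotient S) := by
  obtain ⟨x⟩ : Nonempty S := inferInstance
  obtain ⟨I, tI, -, -, hI, ⟨e⟩⟩ := decomp_homeo hS x
  by_contra hfin
  rw [not_infinite_iff_finite] at hfin
  have := hI inferInstance
  have : Finite S := Finite.of_equiv _ e.symm.toEquiv
  exact not_finite S

/-- a separable thin `R₁` space is finite -/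
theorem separable_finite [R1Space S] [TopologicalSpace.SeparableSpace S] (hS : Thin S) :
    Finite S := by
  by_contra hf
  rw [not_finite_iff_infinite] at hf
  have := quotient_infinite hS
  obtain ⟨U, hUi, hUo, hUd⟩ := exists_seq_infinite_isOpen_pairwise_disjoint (SeparationQuotient S)
  apply no_disjoint_seq hS (fun n => SeparationQuotient.mk ⁻¹' U n)
  · intro n; exact (hUo n).preimage SeparationQuotient.continuous_mk
  · intro n
    obtain ⟨q, hq⟩ := (hUi n).nonempty
    obtain ⟨s, rfl⟩ := SeparationQuotient.surjective_mk q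
    exact ⟨s, hq⟩
  · intro i j hij
    exact (hUd hij).preimage _

lemma no_isolated [T1Space S] [Infinite S] (hS : Thin S) (p : S) : ¬ IsOpen ({p} : Set S) := by
  intro hp
  have hd : DiscreteTopology S := by
    rw [discreteTopology_iff_isOpen_singleton]
    intro q
    obtain ⟨h, hh⟩ := homog hS p q
    have := h.isOpenMap _ hp
    simpa [hh] using this
  have hcard : Cardinal.mk ((({p} : Finset S) : Set S)ᶜ : Set S) = Cardinal.mk S :=
    Cardinal.mk_compl_finset_of_infinite _
  obtain ⟨e⟩ := Cardinal.eq.1 hcard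
  obtain ⟨h, hh⟩ := hS _ univ ⟨⟨e.trans (Equiv.Set.univ S).symm, continuous_of_discreteTopology,
    continuous_of_discreteTopology⟩⟩
  have : h p ∈ ⇑h '' ((({p} : Finset S) : Set S)ᶜ) := by rw [hh]; trivial
  obtain ⟨a, ha, hap⟩ := this
  apply ha
  simp [h.injective hap]

/-- a first-countable thin `T₂` space is finite -/
lemma firstCountable_finite_aux [T2Space S] (hfc : ∀ p : S, (𝓝 p).IsCountablyGenerated)
    (hS : Thin S) : Finite S := by
  by_contra hf
  rw [not_finite_iff_infinite] at hf
  obtain ⟨p⟩ : Nonempty S := inferInstance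
  have hne : (𝓝[≠] p).NeBot := by
    by_contra h
    rw [Filter.not_neBot] at h
    exact no_isolated hS p ((isOpen_singleton_iff_punctured_nhds p).2 h)
  have := hfc p
  have : (𝓝[≠] p).IsCountablyGenerated := by unfold nhdsWithin; infer_instance
  obtain ⟨u, hu⟩ := Filter.exists_seq_tendsto (𝓝[≠] p)
  have hu1 : Filter.Tendsto u Filter.atTop (𝓝 p) := hu.mono_right nhdsWithin_le_nhds
  have hu2 : ∀ᶠ n in Filter.atTop, u n ≠ p := hu.eventually (eventually_mem_nhdsWithin)
  have hDi : (range u).Infinite := by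
    intro hfin
    have hE : (range u \ {p}).Finite := hfin.subset sdiff_subset
    have hc : (range u \ {p})ᶜ ∈ 𝓝 p := hE.isClosed.isOpen_compl.mem_nhds (fun h => h.2 rfl)
    obtain ⟨n, hn1, hn2⟩ := ((hu1.eventually hc).and hu2).exists
    exact hn1 ⟨⟨n, rfl⟩, hn2⟩
  apply no_convergent hS (range u) hDi p
  intro U hU hp
  have hev : ∀ᶠ n in Filter.atTop, u n ∈ U := hu1.eventually (hU.mem_nhds hp)
  obtain ⟨N, hN⟩ := Filter.eventually_atTop.1 hev
  refine ((finite_lt_nat N).image u).subset ?_
  rintro z ⟨⟨n, rfl⟩, hz⟩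
  refine ⟨n, ?_, rfl⟩
  by_contra hn
  exact hz (hN n (not_lt.1 hn))

theorem firstCountable_finite [R1Space S] [FirstCountableTopology S] (hS : Thin S) :
    Finite S := by
  by_contra hf
  rw [not_finite_iff_infinite] at hf
  have hQ := quotient_infinite hS
  have hQfin : Finite (SeparationQuotient S) := by
    apply firstCountable_finite_aux _ (quotient_thin hS)
    intro q
    obtain ⟨s, rfl⟩ := SeparationQuotient.surjective_mk q
    rw [← SeparationQuotient.map_mk_nhds]
    infer_instance
  exact not_finite (SeparationQuotient S)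

end

end H12Thin
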