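import Mathlib
import Pool.Agent.H12.ThinDef
import Pool.Agent.H12.ThinLemmas

set_option autoImplicit false

namespace H12Thin

open Topology Set

section
variable {S : Type} [TopologicalSpace S]

/-- key lemma: exchanging an open part of a clopen set -/
lemma swap_clopen (hS : Thin S) (U : Set S) (hUo : IsOpen U) (hUc : IsClosed U) (g : S ≃ₜ S)
    (O : Set S) (hO : IsOpen O) (hOU : O ⊆ Uᶜ) (hOg : g ⁻¹' O ⊆ U) : IsOpen (closure O) := by
  classical
  set O1 : Set S := g ⁻¹' O with hO1
  have hO1o : IsOpen O1 := hO.preimage g.continuous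
  let R : Set S := U \ closure O1
  have hRo : IsOpen R := hUo.sdiff isClosed_closure
  let A : Set S := R ∪ O1
  have hAo : IsOpen A := hRo.union hO1o
  have hRO1 : ∀ z, z ∈ R → z ∉ O1 := fun z hz h => hz.2 (subset_closure h)
  let F : A → S := fun a => if a.1 ∈ O1 then g a.1 else a.1
  have hF1 : ∀ a : A, a.1 ∈ O1 → F a = g a.1 := fun a h => if_pos h
  have hF2 : ∀ a : A, a.1 ∈ R → F a = a.1 := fun a h => if_neg (hRO1 _ h)
  have hRU : ∀ z, z ∈ R → z ∈ U := fun z hz => hz.1
  have hinj : Function.Injective F := by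
    intro a b hab
    rcases a.2 with ha | ha <;> rcases b.2 with hb | hb
    · rw [hF2 a ha, hF2 b hb] at hab; exact Subtype.ext hab
    · exfalso
      rw [hF2 a ha, hF1 b hb] at hab
      have : g b.1 ∈ O := hb
      exact hOU this (hab ▸ hRU _ ha)
    · exfalso
      rw [hF1 a ha, hF2 b hb] at hab
      have : g a.1 ∈ O := ha
      exact hOU this (hab ▸ hRU _ hb)
    · rw [hF1 a ha, hF1 b hb] at hab; exact Subtype.ext (g.injective hab)
  have hcont : Continuous F := by
    rw [continuous_iff_continuousAt]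
    intro a
    rcases a.2 with ha | ha
    · have hev : F =ᶠ[𝓝 a] fun b => b.1 := by
        have hopen : IsOpen {b : A | b.1 ∈ R} := hRo.preimage continuous_subtype_val
        filter_upwards [hopen.mem_nhds ha] with b hb
        exact hF2 b hb
      exact continuous_subtype_val.continuousAt.congr hev.symm
    · have hev : F =ᶠ[𝓝 a] fun b => g b.1 := by
        have hopen : IsOpen {b : A | b.1 ∈ O1} := hO1o.preimage continuous_subtype_val
        filter_upwards [hopen.mem_nhds ha] with b hb
        exact hF1 b hb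
      exact (g.continuous.comp continuous_subtype_val).continuousAt.congr hev.symm
  have hopenmap : IsOpenMap F := by
    intro V hV
    have hV' : IsOpen (Subtype.val '' V : Set S) := hAo.isOpenMap_subtype_val V hV
    have : F '' V = ((Subtype.val '' V) ∩ R) ∪ g '' ((Subtype.val '' V) ∩ O1) := by
      ext z
      constructor
      · rintro ⟨a, ha, rfl⟩
        rcases a.2 with h | h
        · left; rw [hF2 a h]; exact ⟨⟨a, ha, rfl⟩, h⟩
        · right; rw [hF1 a h]; exact ⟨a.1, ⟨⟨a, ha, rfl⟩, h⟩, rfl⟩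
      · rintro (⟨⟨a, ha, rfl⟩, h⟩ | ⟨t, ⟨⟨a, ha, rfl⟩, h⟩, rfl⟩)
        · exact ⟨a, ha, hF2 a h⟩
        · exact ⟨a, ha, hF1 a h⟩
    rw [this]
    exact (hV'.inter hRo).union (g.isOpenMap _ (hV'.inter hO1o))
  have hemb : IsEmbedding F :=
    (IsOpenEmbedding.of_continuous_injective_isOpenMap hcont hinj hopenmap).isEmbedding
  have hrange : range F = R ∪ O := by
    ext z
    constructor
    · rintro ⟨a, rfl⟩
      rcases a.2 with h | h
      · left; rw [hF2 a h]; exact h
      · right; rw [hF1 a h]; exact h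
    · rintro (h | h)
      · exact ⟨⟨z, Or.inl h⟩, hF2 _ h⟩
      · have h' : g.symm z ∈ O1 := by show g (g.symm z) ∈ O; simpa using h
        refine ⟨⟨g.symm z, Or.inr h'⟩, ?_⟩
        rw [hF1 _ h']; simp
  obtain ⟨h, hh⟩ := hS A (range F) ⟨hemb.toHomeomorph⟩
  have hclA : closure A = U := by
    apply Subset.antisymm
    · refine closure_minimal ?_ hUc
      rintro z (hz | hz)
      · exact hz.1
      · exact hOg hz
    · intro z hz
      by_cases hzc : z ∈ closure O1
      · exact closure_mono subset_union_right hzc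
      · exact subset_closure (Or.inl ⟨hz, hzc⟩)
  have hclB : closure (R ∪ O) = ⇑h '' U := by
    rw [← hrange, ← hh, ← hclA, h.image_closure]
  have hcl2 : closure O = closure (R ∪ O) ∩ Uᶜ := by
    have hRc : closure R ⊆ U := closure_minimal (fun z hz => hz.1) hUc
    have hOc : closure O ⊆ Uᶜ := closure_minimal hOU hUo.isClosed_compl
    rw [closure_union]
    ext z
    constructor
    · intro hz; exact ⟨Or.inr hz, hOc hz⟩
    · rintro ⟨hz | hz, hzU⟩
      · exact (hzU (hRc hz)).elim
      · exact hz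
  rw [hcl2, hclB]
  exact (h.isOpenMap U hUo).inter hUc.isOpen_compl

/-- A disconnected thin space is locally extremally disconnected. -/
theorem locally_ed (hS : Thin S) (C : Set S) (hCo : IsOpen C) (hCc : IsClosed C)
    (hCn : C.Nonempty) (hCn' : Cᶜ.Nonempty) (x : S) :
    ∃ N : Set S, IsOpen N ∧ x ∈ N ∧ ∀ O : Set S, IsOpen O → O ⊆ N → IsOpen (closure O) := by
  have key : ∀ U : Set S, IsOpen U → IsClosed U → U.Nonempty → x ∉ U →
      ∃ N : Set S, IsOpen N ∧ x ∈ N ∧ ∀ O : Set S, IsOpen O → O ⊆ N → IsOpen (closure O) := by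
    intro U hUo hUc ⟨y, hy⟩ hx
    obtain ⟨g, hg⟩ := homog hS y x
    refine ⟨g '' U ∩ Uᶜ, (g.isOpenMap U hUo).inter hUc.isOpen_compl, ⟨⟨y, hy, hg⟩, hx⟩, ?_⟩
    intro O hO hON
    apply swap_clopen hS U hUo hUc g O hO (fun z hz => (hON hz).2)
    intro z hz
    obtain ⟨w, hw, hwz⟩ := (hON hz).1
    rw [← g.injective hwz]
    exact hw
  by_cases hx : x ∈ C
  · exact key Cᶜ hCc.isOpen_compl hCo.isClosed_compl hCn' (fun h => h hx)
  · exact key C hCo hCc hCn hx

end

end H12Thin
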