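import Mathlib
import Pool.Agent.H12.ThinDef
import Pool.Agent.H12.ThinLemmas
import Pool.Agent.H12.ThinDisc

set_option autoImplicit false

namespace H12Thin

open Topology Set

section
variable {S : Type} [TopologicalSpace S]

lemma transfer_closed (hS : Thin S) (P Q : ℕ → Set S) (g : ℕ → S ≃ₜ S)
    (hP : ∀ n, IsOpen (P n)) (hPd : ∀ i j, i ≠ j → Disjoint (P i) (P j))
    (hPc : IsClosed (⋃ n, P n)) (hQ : ∀ n, IsClopen (Q n))
    (hQd : ∀ i j, i ≠ j → Disjoint (Q i) (Q j)) (hg : ∀ n, ∀ z ∈ Q n, g n z ∈ P n) :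
    IsClosed (⋃ n, Q n) := by
  classical
  let A : Set S := ⋃ n, Q n
  have hAo : IsOpen A := isOpen_iUnion fun n => (hQ n).isOpen
  have hκ : ∀ a : A, ∃ k, a.1 ∈ Q k := fun a => mem_iUnion.1 a.2
  choose κ hκQ using hκ
  have hQu : ∀ i j z, z ∈ Q i → z ∈ Q j → i = j := by
    intro i j z hi hj
    by_contra hne
    exact (hQd i j hne).le_bot ⟨hi, hj⟩
  let F : A → S := fun a => g (κ a) a.1
  have hFP : ∀ a, F a ∈ P (κ a) := fun a => hg _ _ (hκQ a)
  have hFk : ∀ (a : A) k, a.1 ∈ Q k → F a = g k a.1 := by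
    intro a k hk
    have : κ a = k := hQu _ _ _ (hκQ a) hk
    show g (κ a) a.1 = _
    rw [this]
  have hFinj : Function.Injective F := by
    intro a b hab
    have h1 := hFP a
    have h2 := hFP b
    rw [hab] at h1
    have hκe : κ a = κ b := by
      by_contra hne
      exact (hPd _ _ hne).le_bot ⟨h1, h2⟩
    have h3 : g (κ a) a.1 = g (κ a) b.1 := by
      have : F b = g (κ a) b.1 := hFk b _ (hκe ▸ hκQ b)
      rw [← this]; exact hab
    exact Subtype.ext ((g (κ a)).injective h3)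
  have hFcont : Continuous F := by
    rw [continuous_iff_continuousAt]
    intro a
    have hev : F =ᶠ[𝓝 a] fun b => g (κ a) b.1 := by
      have hopen : IsOpen {b : A | b.1 ∈ Q (κ a)} := (hQ (κ a)).isOpen.preimage continuous_subtype_val
      filter_upwards [hopen.mem_nhds (hκQ a)] with b hb
      exact hFk b _ hb
    exact ((g (κ a)).continuous.comp continuous_subtype_val).continuousAt.congr hev.symm
  have hFopen : IsOpenMap F := by
    intro U hU
    have hU' : IsOpen (Subtype.val '' U : Set S) := hAo.isOpenMap_subtype_val U hU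
    have : F '' U = ⋃ k, g k '' ((Subtype.val '' U) ∩ Q k) := by
      ext z
      constructor
      · rintro ⟨a, ha, rfl⟩
        exact mem_iUnion.2 ⟨κ a, a.1, ⟨⟨a, ha, rfl⟩, hκQ a⟩, rfl⟩
      · intro hz
        obtain ⟨k, t, ⟨⟨a, ha, rfl⟩, hk⟩, rfl⟩ := mem_iUnion.1 hz
        exact ⟨a, ha, hFk a k hk⟩
    rw [this]
    exact isOpen_iUnion fun k => (g k).isOpenMap _ (hU'.inter (hQ k).isOpen)
  have hemb : IsEmbedding F := (IsOpenEmbedding.of_continuous_injective_isOpenMap hFcont hFinj hFopen).isEmbedding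
  obtain ⟨h, hh⟩ := hS A (range F) ⟨hemb.toHomeomorph⟩
  have hr : range F = (⋃ n, P n) \ (⋃ n, (P n \ g n '' Q n)) := by
    ext z
    constructor
    · rintro ⟨a, rfl⟩
      refine ⟨mem_iUnion.2 ⟨κ a, hFP a⟩, ?_⟩
      intro hz
      obtain ⟨n, hn1, hn2⟩ := mem_iUnion.1 hz
      have : n = κ a := by
        by_contra hne
        exact (hPd _ _ hne).le_bot ⟨hn1, hFP a⟩
      subst this
      exact hn2 ⟨a.1, hκQ a, rfl⟩
    · rintro ⟨hz, hz'⟩
      obtain ⟨n, hn⟩ := mem_iUnion.1 hz
      by_contra hc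
      apply hz'
      refine mem_iUnion.2 ⟨n, hn, ?_⟩
      rintro ⟨t, ht, rfl⟩
      exact hc ⟨⟨t, mem_iUnion.2 ⟨n, ht⟩⟩, hFk _ n ht⟩
  have hrc : IsClosed (range F) := by
    rw [hr]
    refine hPc.sdiff (isOpen_iUnion fun n => (hP n).sdiff ?_)
    exact (g n).isClosedMap _ (hQ n).isClosed
  have : A = ⇑h ⁻¹' (range F) := by
    rw [← hh, preimage_image_eq _ h.injective]
  show IsClosed A
  rw [this]
  exact hrc.preimage h.continuous

/-- A disconnected infinite thin `T₁` space has no regular `G_δ` points. -/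
theorem no_gdelta [T1Space S] [Infinite S] (hS : Thin S) (C : Set S) (hCo : IsOpen C)
    (hCc : IsClosed C) (hCn : C.Nonempty) (hCn' : Cᶜ.Nonempty) (p : S) (V : ℕ → Set S)
    (hV : ∀ n, IsOpen (V n)) (hpV : ∀ n, p ∈ V n) (hVp : (⋂ n, closure (V n)) = {p}) : False := by
  classical
  have sep : ∀ a b : S, a ≠ b → ∃ D : Set S, IsClopen D ∧ a ∈ D ∧ b ∉ D := by
    intro a b hab
    obtain ⟨x, hx⟩ := hCn
    obtain ⟨y, hy⟩ := hCn'
    have hxy : x ≠ y := fun h => hy (h ▸ hx)
    have hC : IsClopen C := ⟨hCc, hCo⟩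
    obtain ⟨h, (⟨h1, h2⟩ | ⟨h1, h2⟩)⟩ := pair_homog hS hxy hab
    · refine ⟨h.symm ⁻¹' C, hC.preimage h.symm.continuous, ?_, ?_⟩
      · rw [← h1]; simpa using hx
      · rw [← h2]; simpa using hy
    · refine ⟨h.symm ⁻¹' Cᶜ, hC.compl.preimage h.symm.continuous, ?_, ?_⟩
      · rw [← h2]; simpa using hy
      · rw [← h1]; simpa using hx
  obtain ⟨R, hRo, hpR, hRed⟩ := locally_ed hS C hCo hCc hCn hCn' p
  have hRed' : ∀ O : Set S, IsOpen O → O ⊆ closure R → IsOpen (closure O) := by
    intro O hO hOR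
    have h1 : closure O = closure (O ∩ R) := by
      apply Subset.antisymm
      · apply closure_minimal _ isClosed_closure
        intro z hz
        rw [mem_closure_iff]
        intro U hU hzU
        obtain ⟨w, ⟨hw1, hw2⟩, hw3⟩ := mem_closure_iff.1 (hOR hz) (U ∩ O) (hU.inter hO) ⟨hzU, hz⟩
        exact ⟨w, hw1, hw2, hw3⟩
      · exact closure_mono inter_subset_left
    rw [h1]
    exact hRed _ (hO.inter hRo) inter_subset_right
  have step : ∀ (N : {N : Set S // IsClopen N ∧ p ∈ N}) (k : ℕ),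
      ∃ (N' : {N : Set S // IsClopen N ∧ p ∈ N}) (g : S ≃ₜ S), N'.1 ⊆ N.1 ∧
        N'.1 ⊆ closure (V k) ∧ N'.1 ⊆ closure R ∧ ∀ z ∈ N'.1, g z ∈ N.1 \ N'.1 := by
    rintro ⟨N, hN, hpN⟩ k
    have hex : ∃ y ∈ N, y ≠ p := by
      by_contra hc
      push Not at hc
      apply no_isolated hS p
      have : ({p} : Set S) = N := by
        ext z
        constructor
        · rintro rfl; exact hpN
        · intro hz; exact hc z hz
      rw [this]; exact hN.isOpen
    obtain ⟨y, hyN, hyp⟩ := hex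
    obtain ⟨D, hD, hyD, hpD⟩ := sep y p hyp
    obtain ⟨g, hg⟩ := homog hS p y
    let O : Set S := (V k ∩ R) ∩ ((N \ D) ∩ g ⁻¹' (D ∩ N))
    have hO : IsOpen O := ((hV k).inter hRo).inter
      ((hN.isOpen.sdiff hD.isClosed).inter ((hD.isOpen.inter hN.isOpen).preimage g.continuous))
    have hpO : p ∈ O := ⟨⟨hpV k, hpR⟩, ⟨hpN, hpD⟩, by
      show g p ∈ D ∩ N
      rw [hg]; exact ⟨hyD, hyN⟩⟩
    have hOR : O ⊆ closure R := fun z hz => subset_closure hz.1.2
    have hcl : closure O ⊆ (N \ D) ∩ g ⁻¹' (D ∩ N) := by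
      apply closure_minimal inter_subset_right
      exact (hN.isClosed.sdiff hD.isOpen).inter
        ((hD.isClosed.inter hN.isClosed).preimage g.continuous)
    refine ⟨⟨closure O, ⟨isClosed_closure, hRed' O hO hOR⟩, subset_closure hpO⟩, g, ?_, ?_, ?_, ?_⟩
    · exact fun z hz => (hcl hz).1.1
    · exact closure_mono (fun z hz => hz.1.1)
    · exact closure_minimal hOR isClosed_closure
    · intro z hz
      have h1 := (hcl hz).2
      exact ⟨h1.2, fun h2 => (hcl h2).1.2 h1.1⟩
  choose nx gx hx1 hx2 hx3 hx4 using step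
  let T : Type := {N : Set S // IsClopen N ∧ p ∈ N}
  let N0 : T := ⟨univ, isClopen_univ, mem_univ p⟩
  let M : ℕ → T := fun n => Nat.rec (nx N0 0) (fun k N => nx N (k + 1)) n
  have hM0 : M 0 = nx N0 0 := rfl
  have hMs : ∀ n, M (n + 1) = nx (M n) (n + 1) := fun n => rfl
  let N : ℕ → Set S := fun n => (M n).1
  let g : ℕ → S ≃ₜ S := fun n => gx (M n) (n + 1)
  have hNc : ∀ n, IsClopen (N n) := fun n => (M n).2.1
  have hpN : ∀ n, p ∈ N n := fun n => (M n).2.2
  have hNs : ∀ n, N (n + 1) ⊆ N n := fun n => hx1 (M n) (n + 1)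
  have hNR : N 0 ⊆ closure R := hx3 N0 0
  have hNV : ∀ n, N n ⊆ closure (V n) := by
    intro n
    cases n with
    | zero => exact hx2 N0 0
    | succ n => exact hx2 (M n) (n + 1)
  have hgN : ∀ n, ∀ z ∈ N (n + 1), g n z ∈ N n \ N (n + 1) := fun n => hx4 (M n) (n + 1)
  have hanti : ∀ i j, i ≤ j → N j ⊆ N i := by
    intro i j hij
    induction j, hij using Nat.le_induction with
    | base => exact Subset.rfl
    | succ j _ ih => exact (hNs j).trans ih
  have hNp : ∀ z, (∀ n, z ∈ N n) → z = p := by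
    intro z hz
    have : z ∈ ⋂ n, closure (V n) := mem_iInter.2 fun n => hNV n (hz n)
    rw [hVp] at this
    exact this
  let O : ℕ → Set S := fun n => N n \ N (n + 1)
  have hOc : ∀ n, IsClopen (O n) := fun n => (hNc n).diff (hNc (n + 1))
  have hOd : ∀ i j, i ≠ j → Disjoint (O i) (O j) := by
    have h1 : ∀ i j, i < j → Disjoint (O i) (O j) := by
      intro i j hij
      rw [disjoint_left]
      intro z hz hz'
      exact hz.2 (hanti (i + 1) j hij hz'.1)
    intro i j hij
    rcases lt_or_gt_of_ne hij with h | h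
    · exact h1 i j h
    · exact (h1 j i h).symm
  have hgO : ∀ n, ∀ z ∈ O (n + 1), g n z ∈ O n := fun n z hz => hgN n z hz.1
  have hcov : ∀ z ∈ N 0, z ≠ p → ∃ n, z ∈ O n := by
    intro z hz hzp
    have hex : ∃ n, z ∉ N n := by
      by_contra hc
      push Not at hc
      exact hzp (hNp z hc)
    have hf := Nat.find_spec hex
    have hpos : Nat.find hex ≠ 0 := by
      intro h0
      rw [h0] at hf
      exact hf hz
    obtain ⟨m, hm⟩ := Nat.exists_eq_succ_of_ne_zero hpos
    refine ⟨m, ?_, ?_⟩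
    · by_contra hc
      exact Nat.find_min hex (m := m) (by omega) hc
    · rw [hm] at hf; exact hf
  have hpO : ∀ n, p ∉ O n := fun n h => h.2 (hpN (n + 1))
  have hOp : ∀ n, IsOpen (O n) := fun n => (hOc n).isOpen
  let E : Set S := ⋃ n, O (2 * n)
  let D : Set S := ⋃ n, O (2 * n + 1)
  have hEo : IsOpen E := isOpen_iUnion fun n => hOp (2 * n)
  have hDo : IsOpen D := isOpen_iUnion fun n => hOp (2 * n + 1)
  have hEN : E ⊆ N 0 := by
    intro z hz
    obtain ⟨n, hn⟩ := mem_iUnion.1 hz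
    exact hanti 0 (2 * n) (Nat.zero_le _) hn.1
  have hDN : D ⊆ N 0 := by
    intro z hz
    obtain ⟨n, hn⟩ := mem_iUnion.1 hz
    exact hanti 0 (2 * n + 1) (Nat.zero_le _) hn.1
  have hED : Disjoint E D := by
    rw [disjoint_left]
    intro z hz hz'
    obtain ⟨i, hi⟩ := mem_iUnion.1 hz
    obtain ⟨j, hj⟩ := mem_iUnion.1 hz'
    exact (hOd (2 * i) (2 * j + 1) (by omega)).le_bot ⟨hi, hj⟩
  have hcE : IsOpen (closure E) := hRed' E hEo (hEN.trans hNR)
  have hdec : ∀ z ∈ N 0, z = p ∨ z ∈ E ∨ z ∈ D := by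
    intro z hz
    by_cases hzp : z = p
    · exact Or.inl hzp
    · obtain ⟨n, hn⟩ := hcov z hz hzp
      rcases Nat.even_or_odd' n with ⟨m, rfl | rfl⟩
      · exact Or.inr (Or.inl (mem_iUnion.2 ⟨m, hn⟩))
      · exact Or.inr (Or.inr (mem_iUnion.2 ⟨m, hn⟩))
  have hclE : ∀ z ∈ closure E, z ∉ D := fun z hz hzD => by
    obtain ⟨w, hw1, hw2⟩ := mem_closure_iff.1 hz D hDo hzD
    exact hED.le_bot ⟨hw2, hw1⟩
  have hclD : ∀ z ∈ closure D, z ∉ closure E := fun z hz hzE => by
    obtain ⟨w, hw1, hw2⟩ := mem_closure_iff.1 hz _ hcE hzE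
    exact hclE w hw1 hw2
  by_cases hpE : p ∈ closure E
  · -- D is closed
    have hDc : IsClosed D := by
      rw [← closure_subset_iff_isClosed]
      intro z hz
      rcases hdec z (closure_minimal hDN (hNc 0).isClosed hz) with h | h | h
      · exact (hclD z hz (h ▸ hpE)).elim
      · exact (hclD z hz (subset_closure h)).elim
      · exact h
    have hE' : IsClosed (⋃ n, O (2 * n + 2)) :=
      transfer_closed hS (fun n => O (2 * n + 1)) (fun n => O (2 * n + 2)) (fun n => g (2 * n + 1))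
        (fun n => hOp (2 * n + 1)) (fun i j hij => hOd (2 * i + 1) (2 * j + 1) (by omega)) hDc
        (fun n => hOc (2 * n + 2))
        (fun i j hij => hOd (2 * i + 2) (2 * j + 2) (by omega)) (fun n z hz => hgO (2 * n + 1) z hz)
    apply no_isolated hS p
    have : ({p} : Set S) = N 1 \ ((⋃ n, O (2 * n + 2)) ∪ D) := by
      ext z
      constructor
      · rintro rfl
        refine ⟨hpN 1, ?_⟩
        rintro (h | h)
        · obtain ⟨n, hn⟩ := mem_iUnion.1 h; exact hpO (2 * n + 2) hn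
        · obtain ⟨n, hn⟩ := mem_iUnion.1 h; exact hpO (2 * n + 1) hn
      · rintro ⟨h1, h2⟩
        rcases hdec z (hNs 0 h1) with h | h | h
        · exact h
        · exfalso
          obtain ⟨n, hn⟩ := mem_iUnion.1 h
          cases n with
          | zero => exact hn.2 h1
          | succ n => exact h2 (Or.inl (mem_iUnion.2 ⟨n, hn⟩))
        · exact (h2 (Or.inr h)).elim
    rw [this]
    exact (hNc 1).isOpen.sdiff (hE'.union hDc)
  · have hEc : IsClosed E := by
      rw [← closure_subset_iff_isClosed]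
      intro z hz
      rcases hdec z (closure_minimal hEN (hNc 0).isClosed hz) with h | h | h
      · exact (hpE (h ▸ hz)).elim
      · exact h
      · exact (hclE z hz h).elim
    have hD' : IsClosed D :=
      transfer_closed hS (fun n => O (2 * n)) (fun n => O (2 * n + 1)) (fun n => g (2 * n))
        (fun n => hOp (2 * n)) (fun i j hij => hOd (2 * i) (2 * j) (by omega)) hEc
        (fun n => hOc (2 * n + 1))
        (fun i j hij => hOd (2 * i + 1) (2 * j + 1) (by omega)) (fun n z hz => hgO (2 * n) z hz)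
    apply no_isolated hS p
    have : ({p} : Set S) = N 0 \ (E ∪ D) := by
      ext z
      constructor
      · rintro rfl
        refine ⟨hpN 0, ?_⟩
        rintro (h | h)
        · obtain ⟨n, hn⟩ := mem_iUnion.1 h; exact hpO (2 * n) hn
        · obtain ⟨n, hn⟩ := mem_iUnion.1 h; exact hpO (2 * n + 1) hn
      · rintro ⟨h1, h2⟩
        rcases hdec z h1 with h | h | h
        · exact h
        · exact (h2 (Or.inl h)).elim
        · exact (h2 (Or.inr h)).elim
    rw [this]
    exact (hNc 0).isOpen.sdiff (hEc.union hD')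

end

end H12Thin
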